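import Pool.Agent.AT12.Stmts2
import Pool.Agent.Helper65_K9.AZR

/-!
# Squad AT12, row QAV: the numbers `Av` as `gbv`
-/

open scoped BigOperators

set_option linter.unusedSectionVars false

noncomputable section

namespace Pool.Agent.PP.T12.H83

open Pool.Agent.Helper51_AWC Pool.Agent.Helper79_WRA Pool.Agent.PP Pool.Agent.PP.KF
open Pool.Agent.PP.K9 Pool.Agent.PP.K9.H97 Pool.Agent.PP.H75 Pool.Agent.PP.T3 Pool.Agent.PP.T2
open Pool.Agent.PP.T8

attribute [local instance] Ideal.Quotient.field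

theorem reg_conj {ℓ : ℕ} {A : Type} [Group A] (x y : A) : Reg ℓ (y * x * y⁻¹) ↔ Reg ℓ x := by
  unfold Reg
  have h : orderOf (y * x * y⁻¹) = orderOf x := by
    have h1 := orderOf_injective (MulAut.conj y).toMonoidHom (MulAut.conj y).injective x
    exact h1
  rw [h]

theorem qav (psi : K9.PsiStmt) (rot : K9.RotStmt) : QavStmt := by
  intro ℓ _ M _ hl G H _ _ _ _ u n π hπ β hβ p hp hRc
  classical
  have := Fintype.ofFinite (Cu u)
  set b : Cu u → FF M := fun t : Cu u => β t with hb
  have hbi : IsIdem b := hβ.idem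
  -- the pull-back of `p`
  have hpull : (fun c : Cu u => p (π c)) ∈ Submodule.span ℂ (IrrE M b) := by
    have hset := (psi M (Cu u) H π hπ.sur b hbi.1).1
    rw [hset] at hp
    clear hRc
    induction hp using Submodule.span_induction with
    | mem θ hθ => exact Submodule.subset_span hθ.2
    | zero => exact Submodule.zero_mem _
    | add f g _ _ hf hg => exact Submodule.add_mem _ hf hg
    | smul a f _ hf => exact Submodule.smul_mem _ a hf
  obtain ⟨q, hq⟩ : ∃ q : Cu u → ℂ, q = fun g => if Reg ℓ g then p (π g) else 0 := ⟨_, rfl⟩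
  have hqs : q ∈ Submodule.span ℂ (IrrE M b) := by
    rw [hq]
    exact (rot ℓ M hl (Cu u) b hbi).1 _ hpull
  refine ⟨fun s => (Nat.card H : ℂ)⁻¹ * starRingEnd ℂ (q s), ⟨?_, ?_⟩, ?_, ?_⟩
  · intro x y
    show (Nat.card H : ℂ)⁻¹ * starRingEnd ℂ (q (y * x * y⁻¹)) =
      (Nat.card H : ℂ)⁻¹ * starRingEnd ℂ (q x)
    have h1 : q (y * x * y⁻¹) = q x := by
      rw [hq]
      show (if Reg ℓ (y * x * y⁻¹) then p (π (y * x * y⁻¹)) else 0) =
        (if Reg ℓ x then p (π x) else 0)
      rw [map_mul, map_mul, map_inv, hRc.cl]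
      simp only [reg_conj]
    rw [h1]
  · intro x hx
    show (Nat.card H : ℂ)⁻¹ * starRingEnd ℂ (q x) = 0
    rw [hq]
    show (Nat.card H : ℂ)⁻¹ * starRingEnd ℂ (if Reg ℓ x then p (π x) else 0) = 0
    rw [if_neg hx, map_zero, mul_zero]
  · funext x
    unfold mulF
    rw [finsum_eq_sum_of_fintype]
    have h1 := K9.H65.eh_act b hqs x
    rw [← Equiv.sum_comp (Equiv.divLeft x)]
    simp only [Equiv.divLeft_apply]
    rw [← h1, Finset.mul_sum]
    refine Finset.sum_congr rfl fun c _ => ?_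
    have e : (x / c)⁻¹ * x = c := by
      rw [div_eq_mul_inv]
      group
    rw [e, div_eq_mul_inv]
    ring
  · intro x χ
    unfold Av gbv
    rw [finsum_eq_sum_of_fintype, finsum_eq_sum_of_fintype, Finset.mul_sum]
    refine Finset.sum_congr rfl fun s _ => ?_
    rw [finsum_eq_if, hq]
    by_cases hs : Reg ℓ s
    · simp only [if_pos hs]
      ring
    · simp only [if_neg hs]
      rw [map_zero]
      ring

end Pool.Agent.PP.T12.H83
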